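import Pool.Agent.Y560.TG.Stm

/-!
Project TG, LABQ: countably many labels.
-/

set_option autoImplicit false

namespace Pool.Agent.Y504.TG

open Set MeasureTheory
open Pool.Agent.H899R2.VP (St Adj PIso BF IsoOn idOn inv comp zipSet)
open Pool.Agent.H533R2.VO (RS lift put OS Ic RIso Dich VC BlkV S_FINAL bf_comp0)
open Pool.Agent.H566P (ar R2 v2 a0 a1 lt ac co mk LA LL MB GB lab sh prec pull S_ACC S_MSG)
open Pool.Agent.Y560.TG

theorem t_LABQ (hB : S_MBF) : S_LABQ := by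
  intro Γ _ g hg R γ hMB hom hlt hfew
  have hGB : GB g ⊤ γ {Y : R2 | BF (lift R) (lift Y) univ univ γ ∅} := by
    refine ⟨?_, hom, hlt, ?_, ?_, ?_⟩
    · have hlift : Measurable (lift : R2 → St ar) := measurable_const.prodMk measurable_id
      exact msg ar (lift R) univ R2 lift (fun _ => univ) hlift (fun z => by simp) γ hlt ∅
    · intro Y hY Y' hY'
      exact bf_comp0 hY hY'
    · intro Y hY
      exact hB Γ g hg R Y hMB (BF.mono hY hom)
    · rintro ⟨c, hc, h1, h2⟩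
      exact hfew ⟨c, hc, h1, h2⟩
  have hcount := Pool.Agent.H566P.t_LABC acc Γ g ⊤ γ _ hg hGB
  have hR : BF (lift R) (lift R) univ univ γ ∅ :=
    (BF.refl (lift R) univ γ).subset (empty_subset _)
  have hne : {p | ∃ Y ∈ {Y : R2 | BF (lift R) (lift Y) univ univ γ ∅},
      ∃ x y, lab g Y x y = p}.Nonempty := ⟨lab g R 0 0, R, hR, 0, 0, rfl⟩
  obtain ⟨p, hp⟩ := hcount.exists_eq_range hne
  refine ⟨fun i m => if m % 2 = 0 then (p i (g (m / 2))).1 = true
    else (p i (g (m / 2))).2 = true, ?_⟩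
  intro Y hY y z
  have h1 : lab g Y y z ∈ range p := by
    rw [← hp]
    exact ⟨Y, hY, y, z, rfl⟩
  obtain ⟨i, hi⟩ := h1
  refine ⟨i, fun m => ?_⟩
  obtain ⟨t, hLA, -⟩ := hGB.mb Y hY
  have h2 := (Pool.Agent.H566P.t_LBF acc Γ g ⊤ Y t hg hLA y).2.2.1 z
  beta_reduce
  rw [hi]
  obtain ⟨k, rfl | rfl⟩ : ∃ k, m = 2 * k ∨ m = 2 * k + 1 := ⟨m / 2, by omega⟩
  · rw [if_pos (by omega), Q_even_iff hLA, show 2 * k / 2 = k by omega]
    rw [(h2 (g k)).1]
    exact ⟨fun h => ⟨Subgroup.mem_top _, h⟩, fun h => h.2⟩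
  · rw [if_neg (by omega), Q_odd_iff hLA, show (2 * k + 1) / 2 = k by omega]
    rw [(h2 (g k)).2]
    exact ⟨fun h => ⟨Subgroup.mem_top _, h⟩, fun h => h.2⟩

end Pool.Agent.Y504.TG
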